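import Pool.Agent.Lib.helper24.SelfIntTab

set_option autoImplicit false

namespace Pool.Agent.Results.MP_0d6f46_co.Gain

open Pool.Agent.Lib.helper24.SelfInt Pool.Agent.Lib.helper24.SelfIntTab

/-- For `S = {3,5,17,25}` and `h = 166` the second player gets strictly more in AvA than in AvF. -/
theorem result : (out {3, 5, 17, 25} true false 166).2 < (out {3, 5, 17, 25} true true 166).2 := by
  rw [out_tb 166 (by norm_num), out_tb 166 (by norm_num)]
  decide +kernel

end Pool.Agent.Results.MP_0d6f46_co.Gain
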